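import Pool.Agent.W927.BM.Own

/-!
For every `n ≥ 2` the classes `BAIRE(ℤⁿ)` and `BOREL(ℤⁿ)` are different: there is a locally
checkable labelling problem with Baire measurable labellings for all free Borel actions on Polish
spaces which has no measurable labelling for some probability measure preserving free Borel action.
-/

namespace Pool.Agent.Results.MP_68d169_lc.BaireNotBorel

open Pool.Agent.W927.BM

/-- For every `n ≥ 2` there is a locally checkable labelling problem on `ℤⁿ` which belongs to
`BAIRE(ℤⁿ)` but neither to `MEASURE(ℤⁿ)` nor to `BOREL(ℤⁿ)`. -/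
theorem result (n : ℕ) (hn : 2 ≤ n) :
    ∃ P : LCLP (Fin n → ℤ), P.InBaire ∧ ¬ P.InMeasure ∧ ¬ P.InBorel := by
  let e := (Fintype.equivFin Lab).symm
  refine ⟨PBM hn e, PBM_inBaire hn e, PBM_not_inMeasure hn e, fun h => PBM_not_inMeasure hn e ?_⟩
  intro X _ _ a ha μ _
  obtain ⟨f, hf, hP⟩ := h X a ha
  exact ⟨f, fun i => (hf (measurableSet_singleton i)).nullMeasurableSet, hP⟩

end Pool.Agent.Results.MP_68d169_lc.BaireNotBorel
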